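import Pool.Agent.Lib.MP_5ea425_an.All.Main

set_option autoImplicit false

namespace Pool.Agent.Results.MP_5ea425_an.AllSpaces

open Pool.Agent.Lib.MP_5ea425_an

/-- Every separable infinite-dimensional Banach space has, for every `k ≥ 1`, a Lipschitz
equivalence of class `C^k`, as close to the identity in the `C^k` norm as we like and moving points
by a function of `2 k + 1` linear coordinates, that maps an Aronszajn null set onto a set with
Aronszajn null complement. -/
theorem result (X : Type) [NormedAddCommGroup X] [NormedSpace ℝ X] [CompleteSpace X]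
    [TopologicalSpace.SeparableSpace X] [MeasurableSpace X] [BorelSpace X]
    (hX : ¬ FiniteDimensional ℝ X) (k : ℕ) (hk : 1 ≤ k) (ε : NNReal) (hε : 0 < ε) :
    ∃ (A : Set X) (T : X ≃ X) (K L : NNReal), LipschitzWith K T ∧ LipschitzWith L T.symm ∧
      LipschitzWith ε (fun x => T x - x) ∧ ContDiff ℝ k T ∧ ContDiff ℝ k T.symm ∧
      (∀ i ≤ k, ∀ x, ‖iteratedFDeriv ℝ i (fun x => T x - x) x‖ ≤ ε) ∧
      (∃ (π : X →L[ℝ] (Fin (2 * k + 1) → ℝ)) (u : (Fin (2 * k + 1) → ℝ) → X),
        ∀ x, T x = x + u (π x)) ∧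
      AronszajnNull A ∧ AronszajnNull (T '' A)ᶜ := by
  obtain ⟨π, u, h1, A, h2, h3, h4, h5⟩ := All.main hX k (NNReal.coe_pos.2 hε)
  let T : X ≃ X :=
    { toFun := fun x => x + u (π x)
      invFun := fun x => x - u (π x)
      left_inv := fun x => by simp [h1]
      right_inv := fun x => by simp [h1] }
  have e : (fun x => T x - x) = u ∘ π := funext fun x => add_sub_cancel_left x _
  have l : LipschitzWith ε (u ∘ π) :=
    lipschitzWith_of_nnnorm_fderiv_le (𝕜 := ℝ) (h2.differentiable (by
      exact_mod_cast (Nat.one_le_iff_ne_zero.1 hk))) fun x =>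
      NNReal.coe_le_coe.1 ((norm_iteratedFDeriv_one _).symm.trans_le (h3 1 hk x))
  refine ⟨A, T, _, _, LipschitzWith.id.add l, LipschitzWith.id.sub l, e ▸ l, contDiff_id.add h2,
    contDiff_id.sub h2, e ▸ h3, ⟨π, u, fun _ => rfl⟩, h4, ?_⟩
  rw [Equiv.image_eq_preimage_symm]
  exact h5

end Pool.Agent.Results.MP_5ea425_an.AllSpaces
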