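import Pool.Agent.Lib.MP_5ea425_an.Smooth.MainB

set_option autoImplicit false

namespace Pool.Agent.Results.MP_5ea425_an.SmoothAllSpaces

open MeasureTheory Pool.Agent.Lib.MP_5ea425_an

/-- Every separable infinite-dimensional Banach space has an infinitely smooth Lipschitz
equivalence, with infinitely smooth inverse and as close to the identity in the `C^k` norm as we
like, that maps an Aronszajn null set onto a set with Aronszajn null complement; both null sets are
null on every line transversal to one closed hyperplane. -/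
theorem result (X : Type) [NormedAddCommGroup X] [NormedSpace ℝ X] [CompleteSpace X]
    [TopologicalSpace.SeparableSpace X] [MeasurableSpace X] [BorelSpace X]
    (hX : ¬ FiniteDimensional ℝ X) (k : ℕ) (ε : ℝ) (hε : 0 < ε) :
    ∃ (A : Set X) (T : X ≃ X) (K L : NNReal), LipschitzWith K T ∧ LipschitzWith L T.symm ∧
      (∀ n : ℕ, ContDiff ℝ n T) ∧ (∀ n : ℕ, ContDiff ℝ n T.symm) ∧
      (∀ i ≤ k, ∀ x, ‖iteratedFDeriv ℝ i (fun x => T x - x) x‖ ≤ ε) ∧
      AronszajnNull A ∧ AronszajnNull (T '' A)ᶜ ∧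
      ∃ p : X →L[ℝ] ℝ, p ≠ 0 ∧ ∀ y v : X, p v = 1 →
        volume {t : ℝ | y + t • v ∈ A} = 0 ∧ volume {t : ℝ | y + t • v ∈ (T '' A)ᶜ} = 0 := by
  haveI : Nontrivial X := not_subsingleton_iff_nontrivial.1 fun _ => hX inferInstance
  obtain ⟨x₀, hx⟩ := exists_ne (0 : X)
  obtain ⟨p, p1, p2⟩ := exists_dual_vector ℝ x₀ (norm_ne_zero_iff.2 hx)
  have e4 : p x₀ ≠ 0 := p2 ▸ norm_ne_zero_iff.2 hx
  obtain ⟨U, V, T, A, h2, h3, h4, h5, h6, h7, h8, h9, h10⟩ := Smooth.mainB hX p
    (fun x => (p.le_opNorm x).trans_eq (by rw [p1, one_mul])) (k + 1)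
    (δ := min (ε / 2) 1) (by positivity) (min_le_right _ _)
  have l : ∀ W : X → X, ContDiff ℝ ((⊤ : ℕ∞) : WithTop ℕ∞) W →
      (∀ x, ‖iteratedFDeriv ℝ 1 W x‖ ≤ min (ε / 2) 1) → LipschitzWith 1 W := fun W a b =>
    lipschitzWith_of_nnnorm_fderiv_le (𝕜 := ℝ) (a.differentiable (by simp)) fun x =>
      NNReal.coe_le_coe.1 ((norm_iteratedFDeriv_one _).symm.trans_le
        ((b x).trans (min_le_right _ _)))
  have l1 := l U h2 (h4 1 (by omega))
  have l2 := l V h3 (h5 1 (by omega))
  have e1 : (T : X → X) = fun x => x + U x + V x := funext h6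
  have e2 : (T.symm : X → X) = fun z => z - U z - V (z - U z) := funext h7
  have e3 : (fun x => T x - x) = fun x => U x + V x := funext fun x => by
    rw [h6]
    abel
  have e5 : ∀ (B : Set X) (y v : X), volume {t : ℝ | y + t • v ∈ B} =
      volume {c : ℝ | y - p y • v + c • v ∈ B} := fun B y v => by
    rw [← measure_preimage_add volume (p y) {c : ℝ | y - p y • v + c • v ∈ B}]
    congr 1
    ext t
    simp [add_smul, ← add_assoc]
  refine ⟨A, T, _, _, e1 ▸ (LipschitzWith.id.add l1).add l2,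
    e2 ▸ (LipschitzWith.id.sub l1).sub (l2.comp (LipschitzWith.id.sub l1)),
    contDiff_infty.1 (e1 ▸ (contDiff_id.add h2).add h3),
    contDiff_infty.1 (e2 ▸ (contDiff_id.sub h2).sub (h3.comp (contDiff_id.sub h2))),
    fun i hi x => ?_, null_of_lines _ e4 h8 fun y v a b => (h10 y v a b).1,
    null_of_lines _ e4 h9 fun y v a b => (h10 y v a b).2, p, fun h => e4 (h ▸ rfl),
    fun y v hv => ?_⟩
  · rw [e3, fun_iteratedFDeriv_add_apply (contDiff_infty.1 h2 i).contDiffAt
      (contDiff_infty.1 h3 i).contDiffAt]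
    linarith [norm_add_le (iteratedFDeriv ℝ i U x) (iteratedFDeriv ℝ i V x), h4 i (by omega) x,
      h5 i (by omega) x, min_le_left (ε / 2) 1]
  · rw [e5, e5 (T '' A)ᶜ]
    exact h10 _ v (by simp [hv]) hv

end Pool.Agent.Results.MP_5ea425_an.SmoothAllSpaces
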