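import Pool.Agent.Lib.MP_5ea425_an.Sharp.Haar
import Pool.Agent.Lib.MP_5ea425_an.Sharp.Pos

set_option autoImplicit false

namespace Pool.Agent.Results.MP_5ea425_an.TwoNullThreshold

open Pool.Agent.Lib.MP_5ea425_an

/-- In a separable infinite-dimensional Hilbert space, a Lipschitz equivalence
`x ↦ x + u (π x)`, with `π` linear onto `ℝ^n` and `u` locally of class `C^(k, α)`, can map a
null set onto a set with null complement exactly when `2 (k + α) ≤ n`, whether each of the two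
uses of null means Aronszajn null or Haar null. -/
theorem result (H : Type) [NormedAddCommGroup H] [InnerProductSpace ℝ H] [CompleteSpace H]
    [TopologicalSpace.SeparableSpace H] [MeasurableSpace H] [BorelSpace H]
    (hH : ¬ FiniteDimensional ℝ H) (n k : ℕ) (α : ℝ) (h0 : 0 ≤ α) (h1 : α ≤ 1) (hk : 1 ≤ k + α)
    (π : H →L[ℝ] (Fin n → ℝ)) (hπ : Function.Surjective π)
    (N N' : Set H → Prop) (hN : N = AronszajnNull ∨ N = HaarNull)
    (hN' : N' = AronszajnNull ∨ N' = HaarNull) :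
    (∃ (u : (Fin n → ℝ) → H) (T : H ≃ H) (K L : NNReal) (A : Set H), ContDiff ℝ k u ∧
      (∀ R : ℝ, ∃ C : ℝ, ∀ c c' : Fin n → ℝ, ‖c‖ ≤ R → ‖c'‖ ≤ R →
        ‖iteratedFDeriv ℝ k u c - iteratedFDeriv ℝ k u c'‖ ≤ C * ‖c - c'‖ ^ α) ∧
      (∀ x, T x = x + u (π x)) ∧ LipschitzWith K T ∧ LipschitzWith L T.symm ∧
      N A ∧ N' (T '' A)ᶜ) ↔ 2 * (k + α) ≤ n := by
  have e : ∀ M : Set H → Prop, M = AronszajnNull ∨ M = HaarNull →
      (∀ A, AronszajnNull A → M A) ∧ ∀ A, M A → HaarNull A := by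
    rintro M (rfl | rfl)
    exacts [⟨fun _ h => h, fun _ => Sharp.haar_of_aron⟩, ⟨fun _ => Sharp.haar_of_aron, fun _ h => h⟩]
  refine ⟨fun ⟨u, T, _, L, A, a1, a2, a3, _, a4, a5, a6⟩ => not_lt.1 fun hn => ?_, fun hn => ?_⟩
  · obtain ⟨C, hC⟩ := a2 1
    exact Sharp.neg_haar h0 hn π hπ a1 hC T a4 a3 ((e N hN).2 _ a5) ((e N' hN').2 _ a6)
  obtain ⟨u, A, a1, a2, a3, a4, a5, a6⟩ := Sharp.pos hH h0 h1
    (Nat.cast_pos.1 (show (0 : ℝ) < n by linarith)) hn π hπ one_pos
  let T : H ≃ H :=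
    { toFun := fun x => x + u (π x)
      invFun := fun x => x - u (π x)
      left_inv := fun x => by simp [a4]
      right_inv := fun x => by simp [a4] }
  have l : LipschitzWith 1 u := by
    rcases Nat.eq_zero_or_pos k with rfl | hk'
    · obtain rfl : α = 1 := le_antisymm h1 (by simpa using hk)
      refine LipschitzWith.of_dist_le_mul fun c c' => ?_
      have b1 := a3 c c'
      rw [← ContinuousMultilinearMap.fin0_apply_norm _ (x := 0), Real.rpow_one] at b1
      simpa [dist_eq_norm] using b1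
    · exact lipschitzWith_of_nnnorm_fderiv_le (𝕜 := ℝ) (a1.differentiable (by
        exact_mod_cast hk'.ne')) fun x =>
        NNReal.coe_le_coe.1 ((norm_iteratedFDeriv_one _).symm.trans_le (a2 1 hk' x))
  refine ⟨u, T, _, _, A, a1, fun _ => ⟨1, fun c c' _ _ => a3 c c'⟩, fun _ => rfl,
    LipschitzWith.id.add (l.comp π.lipschitz), LipschitzWith.id.sub (l.comp π.lipschitz),
    (e N hN).1 _ a5, (e N' hN').1 _ ?_⟩
  rw [Equiv.image_eq_preimage_symm]
  exact a6

end Pool.Agent.Results.MP_5ea425_an.TwoNullThreshold
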